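import Pool.Agent.W982.TA.Grid
import Pool.Agent.H671R2.PolyAuto

set_option autoImplicit false

namespace Pool.Agent.W982.TA

open Pool.Agent.NPC

namespace R1aux

variable {α : Type} [TEnc α]

/-- a family of constants -/
def cE (c : ℕ → List (ℕ × ℕ)) (t : ℕ) : List (ℕ × ℕ) :=
  if t = 0 then c 0 else if t = 1 then c 1 else if t = 2 then c 2 else if t = 3 then c 3
  else if t = 4 then c 4 else if t = 5 then c 5 else if t = 6 then c 6 else c 7

theorem cE_eq (c : ℕ → List (ℕ × ℕ)) {t : ℕ} (h : t < 8) : cE c t = c t := by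
  unfold cE
  interval_cases t <;> rfl

theorem cE_poly (c : ℕ → List (ℕ × ℕ)) {t : α → ℕ} (h : Poly t) : Poly (fun x => cE c (t x)) := by
  unfold cE
  refine NPC.Poly.ite (NPC.Poly.decide_eq h (NPC.Poly.const 0)) (NPC.Poly.const _) ?_
  refine NPC.Poly.ite (NPC.Poly.decide_eq h (NPC.Poly.const 1)) (NPC.Poly.const _) ?_
  refine NPC.Poly.ite (NPC.Poly.decide_eq h (NPC.Poly.const 2)) (NPC.Poly.const _) ?_
  refine NPC.Poly.ite (NPC.Poly.decide_eq h (NPC.Poly.const 3)) (NPC.Poly.const _) ?_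
  refine NPC.Poly.ite (NPC.Poly.decide_eq h (NPC.Poly.const 4)) (NPC.Poly.const _) ?_
  refine NPC.Poly.ite (NPC.Poly.decide_eq h (NPC.Poly.const 5)) (NPC.Poly.const _) ?_
  exact NPC.Poly.ite (NPC.Poly.decide_eq h (NPC.Poly.const 6)) (NPC.Poly.const _)
    (NPC.Poly.const _)

theorem ty_lt (φ : List Cl) (i j : ℕ) : ty φ i j < 8 := by
  unfold ty
  split_ifs <;> omega

theorem nR_poly {φ : α → List Cl} (h : Poly φ) : Poly (fun x => nR (φ x)) := by
  unfold nR
  fun_prop

theorem nC_poly {φ : α → List Cl} (h : Poly φ) : Poly (fun x => nC (φ x)) := by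
  unfold nC
  fun_prop

theorem nR_upoly {φ : α → List Cl} (h : Poly φ) : UPoly (fun x => nR (φ x)) := by
  unfold nR
  exact UPoly.add (UPoly.mul (UPoly.const 6) (UPoly.length h)) (UPoly.const 2)

theorem nC_upoly {φ : α → List Cl} (h : Poly φ) : UPoly (fun x => nC (φ x)) := by
  unfold nC
  exact UPoly.add (UPoly.length h) (UPoly.const 1)

theorem litRow_poly {i : α → ℕ} (h : Poly i) : Poly (fun x => litRow (i x)) := by
  unfold litRow
  fun_prop

theorem clOf_poly {φ : α → List Cl} {j : α → ℕ} (h : Poly φ) (hj : Poly j) :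
    Poly (fun x => clOf (φ x) (j x)) := by
  unfold clOf
  fun_prop

theorem inCl_poly {l : α → Lit ℕ} {c : α → Cl} (hl : Poly l) (hc : Poly c) :
    Poly (fun x => inCl (l x) (c x)) := by
  unfold inCl
  fun_prop

attribute [local fun_prop] nR_poly nC_poly litRow_poly clOf_poly inCl_poly
attribute [local irreducible] nR nC litRow clOf inCl

theorem ty_poly {φ : α → List Cl} {i j : α → ℕ} (h : Poly φ) (hi : Poly i) (hj : Poly j) :
    Poly (fun x => ty (φ x) (i x) (j x)) := by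
  unfold ty
  fun_prop

attribute [local fun_prop] ty_poly
attribute [local irreducible] ty

/-- the missing points, with explicit case distinction -/
def ML (c : ℕ → List (ℕ × ℕ)) (φ : List Cl) : List Pt :=
  (List.range (nR φ)).flatMap fun i => (List.range (nC φ)).flatMap fun j =>
    (cE c (ty φ i j)).map fun c => (((64 * j + c.1 : ℕ) : ℤ), ((62 * i + c.2 : ℕ) : ℤ))

theorem ML_poly (c : ℕ → List (ℕ × ℕ)) : Poly (ML c) := by
  unfold ML
  refine NPC.Poly.flatMap (l := fun φ => List.range (nR φ))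
    (F := fun φ i => (List.range (nC φ)).flatMap fun j =>
      (cE c (ty φ i j)).map fun c => (((64 * j + c.1 : ℕ) : ℤ), ((62 * i + c.2 : ℕ) : ℤ)))
    (nR_upoly NPC.Poly.id).range ?_
  refine NPC.Poly.flatMap (l := fun x : List Cl × ℕ => List.range (nC x.1))
    (F := fun x j => (cE c (ty x.1 x.2 j)).map fun c =>
      (((64 * j + c.1 : ℕ) : ℤ), ((62 * x.2 + c.2 : ℕ) : ℤ)))
    (nC_upoly (NPC.Poly.fst NPC.Poly.id)).range ?_
  refine NPC.Poly.map (l := fun x : (List Cl × ℕ) × ℕ => cE c (ty x.1.1 x.1.2 x.2))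
    (F := fun x c => (((64 * x.2 + c.1 : ℕ) : ℤ), ((62 * x.1.2 + c.2 : ℕ) : ℤ)))
    (cE_poly c ?_) ?_
  · fun_prop
  · fun_prop

theorem ML_eq (φ : List Cl) : ML (fun t => cellsOf (pat t)) φ = Mlist φ := by
  unfold ML Mlist
  simp only [cE_eq _ (ty_lt _ _ _)]

theorem box_poly : Poly (fun φ : List Cl => (List.range (64 * nC φ + 8)).flatMap fun x =>
    (List.range (62 * nR φ)).map fun y => (((x : ℕ) : ℤ), ((y : ℕ) : ℤ))) := by
  refine NPC.Poly.flatMap (l := fun φ : List Cl => List.range (64 * nC φ + 8))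
    (F := fun φ x => (List.range (62 * nR φ)).map fun y => (((x : ℕ) : ℤ), ((y : ℕ) : ℤ)))
    (UPoly.add (UPoly.mul (UPoly.const 64) (nC_upoly NPC.Poly.id)) (UPoly.const 8)).range ?_
  refine NPC.Poly.map (l := fun x : List Cl × ℕ => List.range (62 * nR x.1))
    (F := fun x y => (((x.2 : ℕ) : ℤ), ((y : ℕ) : ℤ)))
    (UPoly.mul (UPoly.const 62) (nR_upoly (NPC.Poly.fst NPC.Poly.id))).range ?_
  fun_prop

theorem Slist_poly : Poly Slist := by
  unfold Slist
  refine NPC.Poly.filter (p := fun φ p => decide (p ∉ Mlist φ)) box_poly ?_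
  refine NPC.Poly.decide_not (p := fun x : List Cl × Pt => x.2 ∈ Mlist x.1) ?_
  have hM : Poly Mlist := (ML_poly fun t => cellsOf (pat t)).congr fun φ => ML_eq φ
  exact NPC.Poly.dec_mem (NPC.Poly.snd NPC.Poly.id) (hM.comp (NPC.Poly.fst NPC.Poly.id))

end R1aux

theorem r1 : Poly (fun phi : List Cl => (Slist phi, (1 : Rat))) :=
  NPC.Poly.pair R1aux.Slist_poly (NPC.Poly.const 1)

end Pool.Agent.W982.TA
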